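import Pool.Agent.H570R2.ZamAsymp

/-!
The zero-information Arthur-Merlin complexity of `INDEX_n` is subpolynomial:
`ZAM(INDEX_n) ≤ 2^(54 √(log₂ n · log₂ log₂ n)) = n^{o(1)}`. The conjecture
`ZAM(INDEX_n) = Θ(n)` is false.

`AMProtocol`, `AMProtocol.IsZAM` and `ZAM` are defined in `Pool.Agent.H570R2.ZamDefs`, a file of the
starting point.
-/

set_option autoImplicit false

namespace Pool.Agent.Results.MP_63af43_lc.SubpolynomialUpperBound

open Filter Topology Pool.Agent.H570R2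

/-- `INDEX_n(x, y) = x_y` for `x ∈ {0,1}^n` and `y ∈ [n]`. -/
def INDEX (n : ℕ) (x : Fin n → Bool) (y : Fin n) : Bool := x y

theorem index_le (n : ℕ) (hn : 4 ≤ n) :
    ZAM (INDEX n) ≤
      ((⌊(2 : ℝ) ^ (54 * Real.sqrt (Real.logb 2 n * Real.logb 2 (Real.logb 2 n)))⌋₊ : ℕ) : ℕ∞) :=
  ZAM_le_of_card_le (INDEX n) n hn (by simp)

theorem index_le_rpow (ε : ℝ) (hε : 0 < ε) :
    ∀ᶠ n : ℕ in atTop, ZAM (INDEX n) ≤ ((⌊(n : ℝ) ^ ε⌋₊ : ℕ) : ℕ∞) := by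
  have h0 : Tendsto (fun n : ℕ => Real.logb 2 (n : ℝ)) atTop atTop :=
    (Real.tendsto_logb_atTop (by norm_num)).comp tendsto_natCast_atTop_atTop
  have h1 := h0.eventually (eventually_sqrt_le 54 ε (by norm_num) hε)
  filter_upwards [h1, eventually_ge_atTop 4] with n hn hn4
  refine (index_le n hn4).trans ?_
  rw [Nat.cast_le]
  apply Nat.floor_le_floor
  have hn0 : (0 : ℝ) < n := by
    have : 0 < n := by omega
    exact_mod_cast this
  calc (2 : ℝ) ^ (54 * Real.sqrt (Real.logb 2 n * Real.logb 2 (Real.logb 2 n)))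
      ≤ (2 : ℝ) ^ (ε * Real.logb 2 n) := Real.rpow_le_rpow_of_exponent_le (by norm_num) hn
    _ = (n : ℝ) ^ ε := by
      rw [mul_comm, Real.rpow_mul (by norm_num), Real.rpow_logb (by norm_num) (by norm_num) hn0]

/-- `ZAM(INDEX_n)` for `n → ∞`.
(1) `ZAM(INDEX_n) ≤ 2 ^ (54 √(log₂ n · log₂ log₂ n))` for all `n ≥ 4`.
(2) For every `ε > 0`, `ZAM(INDEX_n) ≤ n ^ ε` for all large `n`.
(3) The conjecture `ZAM(INDEX_n) = Θ(n)` is false: there are no `c, C > 0` with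
`c n ≤ ZAM(INDEX_n) ≤ C n` for all large `n`; moreover `ZAM(INDEX_n) / n → 0`, and for every `c > 0`,
`ZAM(INDEX_n) ≥ c n` holds for only finitely many `n`.
(4) The same bound for every function with at most `n` columns: if `n ≥ 4`, then
`ZAM(f) ≤ 2 ^ (54 √(log₂ n · log₂ log₂ n))` for every `f : X × Y → {0,1}` with `|Y| ≤ n`. -/
theorem result :
    (∀ n : ℕ, 4 ≤ n → ZAM (INDEX n) ≤
      ((⌊(2 : ℝ) ^ (54 * Real.sqrt (Real.logb 2 n * Real.logb 2 (Real.logb 2 n)))⌋₊ : ℕ) : ℕ∞)) ∧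
    (∀ ε : ℝ, 0 < ε → ∀ᶠ n : ℕ in atTop, ZAM (INDEX n) ≤ ((⌊(n : ℝ) ^ ε⌋₊ : ℕ) : ℕ∞)) ∧
    (¬ ∃ c C : ℝ, 0 < c ∧ 0 < C ∧ ∀ᶠ n : ℕ in atTop,
      ENNReal.ofReal (c * n) ≤ ((ZAM (INDEX n) : ℕ∞) : ENNReal) ∧
      ((ZAM (INDEX n) : ℕ∞) : ENNReal) ≤ ENNReal.ofReal (C * n)) ∧
    Tendsto (fun n : ℕ => ((ZAM (INDEX n) : ℕ∞) : ENNReal) / (n : ENNReal)) atTop (𝓝 0) ∧
    (∀ c : ℝ, 0 < c → ∀ᶠ n : ℕ in atTop,
      ((ZAM (INDEX n) : ℕ∞) : ENNReal) < ENNReal.ofReal (c * n)) ∧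
    (∀ n : ℕ, 4 ≤ n → ∀ (X Y : Type) [Finite X] [Finite Y] (f : X → Y → Bool), Nat.card Y ≤ n →
      ZAM f ≤
      ((⌊(2 : ℝ) ^ (54 * Real.sqrt (Real.logb 2 n * Real.logb 2 (Real.logb 2 n)))⌋₊ : ℕ) :
        ℕ∞)) := by
  have key : ∀ c : ℝ, 0 < c → ∀ᶠ n : ℕ in atTop,
      ((ZAM (INDEX n) : ℕ∞) : ENNReal) < ENNReal.ofReal (c * n) := by
    intro c hc
    have h1 := index_le_rpow (1 / 2) (by norm_num)
    have h2 : ∀ᶠ n : ℕ in atTop, 1 / c ^ 2 < (n : ℝ) :=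
      tendsto_natCast_atTop_atTop.eventually (eventually_gt_atTop (1 / c ^ 2))
    filter_upwards [h1, h2, eventually_ge_atTop 1] with n hn hn2 hn1
    have hn0 : (0 : ℝ) < n := by exact_mod_cast hn1
    have h3 : ((ZAM (INDEX n) : ℕ∞) : ENNReal) ≤ ENNReal.ofReal ((n : ℝ) ^ ((1 : ℝ) / 2)) := by
      have h4 := ENat.toENNReal_le.2 hn
      refine h4.trans ?_
      rw [ENat.toENNReal_coe, ← ENNReal.ofReal_natCast]
      exact ENNReal.ofReal_le_ofReal (Nat.floor_le (by positivity))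
    refine lt_of_le_of_lt h3 ?_
    rw [ENNReal.ofReal_lt_ofReal_iff (by positivity), ← Real.sqrt_eq_rpow]
    have h5 : 1 < c ^ 2 * n := by
      rw [div_lt_iff₀ (by positivity)] at hn2
      linarith [mul_comm (n : ℝ) (c ^ 2)]
    rw [Real.sqrt_lt' (by positivity)]
    nlinarith
  refine ⟨index_le, index_le_rpow, ?_, ?_, key, ?_⟩
  · rintro ⟨c, C, hc, -, h⟩
    obtain ⟨n, h1, h2⟩ := (h.and (key c hc)).exists
    exact absurd (lt_of_le_of_lt h1.1 h2) (lt_irrefl _)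
  · rw [ENNReal.tendsto_nhds_zero]
    intro ε hε
    obtain ⟨c, hc0, hc⟩ : ∃ c : ℝ, 0 < c ∧ ENNReal.ofReal c ≤ ε := by
      rcases eq_or_ne ε ⊤ with h | h
      · exact ⟨1, by norm_num, by rw [h]; exact le_top⟩
      · exact ⟨ε.toReal, ENNReal.toReal_pos hε.ne' h, by rw [ENNReal.ofReal_toReal h]⟩
    filter_upwards [key c hc0, eventually_ge_atTop 1] with n hn hn1
    have hn0 : (n : ENNReal) ≠ 0 := by
      have : n ≠ 0 := by omega
      exact_mod_cast this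
    rw [ENNReal.div_le_iff hn0 (ENNReal.natCast_ne_top n)]
    refine hn.le.trans ?_
    rw [ENNReal.ofReal_mul hc0.le, ENNReal.ofReal_natCast]
    gcongr
  · intro n hn X Y _ _ f hY
    have := Fintype.ofFinite Y
    exact ZAM_le_of_card_le f n hn (by rwa [Nat.card_eq_fintype_card] at hY)

end Pool.Agent.Results.MP_63af43_lc.SubpolynomialUpperBound
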